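import Pool.Agent.Lib.MP_ae38e0_lc.Few.Both
import Pool.Agent.Lib.MP_ae38e0_lc.Perf

set_option autoImplicit false

namespace Pool.Agent.Results.MP_ae38e0_lc.AnyRounds

open Pool.Agent.LinOT

/-- **Oblivious transfer from a one-way function with linear (algebraic) access: impossible if it is
perfectly correct, and needs linearly many queries if it is not, whatever the number of rounds.**

Let `f : X → K^(3k)`, `|X| = 2^k`, be a uniformly random function, accessible through all
`K`-linear functionals of its truth table.  Take an oblivious transfer protocol with any number `N`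
of rounds, in which both (computationally unbounded) parties may ask such queries in all rounds, the
receiver (with choice bit `0`) at most `nR` and the sender at most `nS` of them altogether.  Let `δ`
bound the error of the receiver, let `n ≥ nR, nS, 1` and `h > 0`, and let either
* `B = 1024 n ^ 11 min (binom (nR + nS) nR) (|K| ^ (2 min nR nS)) h ^ 8` and `ε = 50 / h`, or
* `δ = 0` (perfect correctness), `B = n (2 n + 1)` and `ε = 0`.
Then there is an adversary `E` which asks at most `B` queries such that
* `E`, applied to the transcript, has three distinguishing advantages (against the choice bit of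
  the receiver, and against the bit not chosen by the receiver) whose sum is at least
  `1 - 2 δ - ε`, and
* for every `q`, no algorithm which makes at most `q` linear queries to `f` and calls to `E` inverts
  `f` with probability more than `(B q + 2) / 2^k`.
So no black-box reduction of complexity `2 ^ o(k)` proves the protocol secure if it is perfectly
correct and makes `2 ^ o(k)` queries; or if both parties ask at most `(1/2 - ε) k` queries (for any
`K`), or if only one party is restricted to `ε k` queries and the other one makes at most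
`2 ^ (ε k)` (for fixed `K`, `ε = ε(K) > 0` small). -/
theorem result :
    ∀ (K M : Type) [Field K] [Fintype K] (k N n nR nS h : ℕ)
      (L : Submodule K ((Fin (2 ^ k) × Fin (3 * k) → K) → K))
      (R : Party (Fin (2 ^ k) × Fin (3 * k) → K) K M Bool)
      (S : Party (Fin (2 ^ k) × Fin (3 * k) → K) K M (Bool × Bool)) [Fintype R.Tape]
      [Fintype S.Tape] [Nonempty R.Tape] [Nonempty S.Tape] (out : R.St → Option Bool) (m0 : M),
      (∀ O, O ∈ L ↔ ∃ f : Fin (2 ^ k) → Fin (3 * k) → K, O = lin f) →
      nR ≤ n → nS ≤ n → 0 < n → 0 < h →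
      limited L R false N nR → (∀ b, limited L S b N nS) →
      ∀ (δ ε : ℝ) (B : ℕ) (b1 : Bool), (∀ b0, err L R S out N m0 false b0 b1 ≤ δ) →
        (B = 1024 * n ^ 11 *
            min ((nR + nS).choose nR) (Fintype.card K ^ (2 * min nR nS)) * h ^ 8 ∧ ε = 50 / h) ∨
          (δ = 0 ∧ B = n * (2 * n + 1) ∧ ε = 0) →
        ∃ E : List (M × M) → Comp (Fin (2 ^ k) × Fin (3 * k) → K) K Bool,
          (∀ t O, ((E t).asked O).length ≤ B) ∧
          1 - 2 * δ - ε ≤ advSum L R S N m0 E b1 ∧
          ∀ (q : ℕ) (I : (Fin (3 * k) → K) →
              Comp ((Fin (2 ^ k) × Fin (3 * k) → K) ⊕ List (M × M)) (K ⊕ Bool) (Fin (2 ^ k))),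
            (∀ y O, ((I y).asked (withAdv O E)).length ≤ q) →
            prob (fun p : (Fin (2 ^ k) → Fin (3 * k) → K) × Fin (2 ^ k) =>
              p.1 ((I (p.1 p.2)).run (withAdv (lin p.1) E)) = p.1 p.2) ≤
                ((B * q : ℕ) + 2) / 2 ^ k := by
  intro K M _ _ k N n nR nS h L R S _ _ _ _ out m0 _ hR1 hS1 hn hh hR hS δ ε B b1 hδ hB
  rcases hB with ⟨rfl, rfl⟩ | ⟨rfl, rfl, rfl⟩
  · exact both_barrier K M k N n nR nS h L R S out m0 ⟨hR1, hS1⟩ hn hh hR hS δ b1 hδ
  · obtain ⟨E, h1, h2, h3⟩ := perfect_barrier K M k N n nR nS L R S out m0 ⟨hR1, hS1⟩ hn hR hS b1 hδ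
    rw [Nat.mul_comm (2 * n + 1) n] at h1 h3
    exact ⟨E, h1, by simpa using h2, h3⟩

end Pool.Agent.Results.MP_ae38e0_lc.AnyRounds
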