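import Pool.Agent.Lib.MP_ae38e0_lc.Fe.Res

set_option autoImplicit false

namespace Pool.Agent.Results.MP_ae38e0_lc.FunctionalEncryptionBarrier

open Pool.Agent.LinOT Pool.Agent.Fe

/-- **One-way functions and private-key functional encryption for functions with `f`-gates do not
give oblivious transfer, whatever the number of rounds, even with errors.**

The world is a uniformly random function `f : {0,1}^k → K` and a uniformly random encoding
`L : T × {0,1}^k → (Option J → K)`: the secret key `s = (t, r)` has the handle `L s none` and the
labels `L s (some j)`.  All parties may compute `f`; who knows `s` may compute the handle and the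
labels of `s` and find the index of a label of `s`; and all parties may evaluate lists of at most
`a` labels: for a handle `η` and a list `l` they get `F t js`, a value computed with at most `m`
queries to `f`, if exactly one key `(t, r)` and one list `js` of indices have the handle `η` and the
labels `l`, and nothing otherwise.  `F t js` determines `F t js'` for all lists `js'` of elements
of `js` (by `G`, with at most `m` queries).

Example: functional encryption.  The indices are the pairs of a plaintext and random bits (the label
is a ciphertext) and the functions (the label is a function key); `F t js` is the list of the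
lengths of the plaintexts of `js` and of the values of all functions of `js` at all plaintexts (or
at all pairs of plaintexts, ...) of `js`, where the functions may have `f`-gates.  Other examples:
garbled circuits with `f`-gates (`t` a circuit, `J` the pairs of an input wire and a bit), and
proofs of statements about `f` (`t` a statement with a witness, `J` empty).

Take an oblivious transfer protocol with any number `N` of rounds, in which both (computationally
unbounded) parties ask at most `n ≤ a` queries (the receiver with choice bit `0`), and in which the
receiver errs with probability at most `δ`.  Then there is an adversary `E` with at most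
`B = 55296 (n (a + 3 m + 4)) ^ 5 h ^ 3` queries such that
* `E`, applied to the transcript, has three distinguishing advantages (against the choice bit of the
  receiver, and against the bit not chosen by the receiver) whose sum is at least
  `1 - 2 δ - 6 / h`, up to a term which is negligible when handles and labels are long;
* algorithms with at most `q` queries and calls to `E` do not invert `f`;
* such algorithms do not distinguish keys of type `t0` and `t1` when they get the handle and labels
  with indices `j0` respectively `j1`, for adaptively chosen pairs `(j0, j1)`, as long as `F t0` of
  the first indices is `F t1` of the second ones: labels reveal nothing but the value of `F`. -/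
theorem result :
    ∀ (T J K V M : Type) [Fintype T] [Nonempty T] [Fintype J] [Fintype K] [Nonempty K]
      (k a m N n h : ℕ) (F : T → List J → Comp (Fin (2 ^ k)) K V)
      (G : V → List ℕ → Comp (Fin (2 ^ k)) K V) (R : Party (Qy k T J K) (Ans J K V) M Bool)
      (D : Party (Qy k T J K) (Ans J K V) M (Bool × Bool)) [Fintype R.Tape] [Fintype D.Tape]
      [Nonempty R.Tape] [Nonempty D.Tape] (out : R.St → Option Bool) (m0 : M),
      Leakage a F G m → 0 < n → 0 < h → n ≤ a →
      limited a (onKey F) R false N n → (∀ b, limited a (onKey F) D b N n) →
      ∀ (δ : ℝ) (b1 : Bool), (∀ b0, err a (onKey F) R D out N m0 false b0 b1 ≤ δ) →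
      ∀ B : ℕ, B = 55296 * (n * (a + 3 * m + 4)) ^ 5 * h ^ 3 →
      ∀ C : ℝ, C = 2 ^ k * Fintype.card T * (Fintype.card J + 1) / Fintype.card K →
      ∃ E : List (M × M) → Comp (Qy k T J K) (Ans J K V) Bool,
        (∀ t O, ((E t).asked O).length ≤ B) ∧
        1 - 2 * δ - 6 / h - B ^ 4 * C ≤ advSum a (onKey F) R D N m0 E b1 ∧
        ∀ (q : ℕ) (I : ℝ), I = (B * q + 2) * (a + m + 4) →
          Oneway a F E q (I / 2 ^ k + I * C + 2 ^ k / Fintype.card K) ∧
          Hiding a F E q (2 * I / 2 ^ k + 2 * I * C) := by
  intro T J K V M _ _ _ _ _ k a m N n h F G R D _ _ _ _ out m0 hL hn hh hna hR hD δ b1 hδ B hB C hC
  exact barrier_res a m N n h F G R D out m0 hL hn hh hna hR hD δ b1 hδ B hB C hC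

end Pool.Agent.Results.MP_ae38e0_lc.FunctionalEncryptionBarrier
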