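import Pool.Agent.Lib.MP_ae38e0_lc.Half.OTH

set_option autoImplicit false

namespace Pool.Agent.Results.MP_ae38e0_lc.OneSidedBarrier

open Pool.Agent.LinOT

/-- **Oblivious transfer from a one-way function to which one of the two parties has linear
(algebraic) access, with any number of rounds.**

Let `f : X → K^(3k)`, `|X| = 2^k`, be a uniformly random function.  Take an oblivious transfer
protocol with any number `N` of rounds, whose (computationally unbounded) parties make at most
`n ≤ k^c` queries; a query is any `K`-linear functional of the truth table of `f`.  Suppose that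
one of the two parties (the receiver with choice bit `0`, or the sender) is restricted: all its
queries together involve at most `n` entries of the truth table, for instance since it asks only for
values of `f`.  The other party is not restricted.  If `80 (c + 2) log k ≤ k` then there is an
adversary `E` for which
* `E` asks only for entries of the truth table, at most `2 * 10^8 * k^(10 c + 6)` of them,
* `E`, applied to the transcript, has three distinguishing advantages (against the choice bit of
  the receiver, and against the bit not chosen by the receiver) whose sum is at least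
  `1 - 2 δ - 1 / k`, `δ` being the error of the receiver, and
* no algorithm which makes at most `2^(k/4)` linear queries to `f` and calls to `E` inverts `f` with
  probability more than `3 / 2^(k/2)`.
So no black-box reduction, even of complexity `2^(k/4)`, proves such a protocol secure. -/
theorem result :
    ∀ (K M : Type) [Field K] [Fintype K] (k c N n : ℕ)
      (L : Submodule K ((Fin (2 ^ k) × Fin (3 * k) → K) → K))
      (R : Party (Fin (2 ^ k) × Fin (3 * k) → K) K M Bool)
      (S : Party (Fin (2 ^ k) × Fin (3 * k) → K) K M (Bool × Bool)) [Fintype R.Tape]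
      [Fintype S.Tape] [Nonempty R.Tape] [Nonempty S.Tape] (out : R.St → Option Bool) (m0 : M),
      (∀ O, O ∈ L ↔ ∃ f : Fin (2 ^ k) → Fin (3 * k) → K, O = lin f) →
      2 ≤ k → n ≤ k ^ c → 80 * (c + 2) * Nat.log 2 k ≤ k →
      limited L R false N n → (∀ b, limited L S b N n) →
      (sparse L R false N n ∨ ∀ b, sparse L S b N n) →
      ∀ (δ : ℝ) (b1 : Bool), (∀ b0, err L R S out N m0 false b0 b1 ≤ δ) →
        ∃ E : List (M × M) → Comp (Fin (2 ^ k) × Fin (3 * k) → K) K Bool,
          (∀ t O, ((E t).asked O).length ≤ 2 * 10 ^ 8 * k ^ (10 * c + 6)) ∧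
          (∀ t O, ∀ q ∈ (E t).asked O, ∃ p : Fin (2 ^ k) × Fin (3 * k), q = pt p) ∧
          1 - 2 * δ - 1 / k ≤ advSum L R S N m0 E b1 ∧
          ∀ I : (Fin (3 * k) → K) →
              Comp ((Fin (2 ^ k) × Fin (3 * k) → K) ⊕ List (M × M)) (K ⊕ Bool) (Fin (2 ^ k)),
            (∀ y O, ((I y).asked (withAdv O E)).length ≤ 2 ^ (k / 4)) →
            prob (fun p : (Fin (2 ^ k) → Fin (3 * k) → K) × Fin (2 ^ k) =>
              p.1 ((I (p.1 p.2)).run (withAdv (lin p.1) E)) = p.1 p.2) ≤ 3 / 2 ^ (k / 2) := by
  intro K M _ _ k c N n L R S _ _ _ _ out m0 hL hk hn hc hR hS hs δ b1 hδ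
  exact half_barrier K M k c N n L R S out m0 hL hk hn hc hR hS hs δ b1 hδ

end Pool.Agent.Results.MP_ae38e0_lc.OneSidedBarrier
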