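import Pool.Agent.Lib.MP_ae38e0_lc.WindowNum

set_option autoImplicit false

namespace Pool.Agent.Results.MP_ae38e0_lc.WindowBarrier

open Pool.Agent.LinOT

/-- **Oblivious transfer from a one-way function with linear (algebraic) access needs almost
linearly many rounds between the uses of the function.**

Let `f : X → K^(3k)`, `|X| = 2^k`, be a uniformly random function, accessible through all
`K`-linear functionals of its truth table.  Take an oblivious transfer protocol with any number `N`
of rounds, whose (computationally unbounded) parties make at most `k^c` such queries.  Suppose that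
there is a window of `r` rounds, with `16 (c + 4) (r + 1) log k ≤ k`, such that nobody asks a query
after the window and one of the two parties asks none before it.  Then there is an adversary `E` for
which
* `E`, applied to the transcript, has three distinguishing advantages (against the choice bit of
  the receiver, and against the bit not chosen by the receiver) whose sum is at least
  `1 - 2 δ - 1 / k`, `δ` being the error of the receiver, and
* no algorithm which makes at most `2^(k/4)` linear queries to `f` and calls to `E` inverts `f` with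
  probability more than `3 / 2^(k/2)`.
So no black-box reduction, even of complexity `2^(k/4)`, proves such a protocol secure. -/
theorem result :
    ∀ (K M : Type) [Field K] [Fintype K] (k c N s r n : ℕ)
      (L : Submodule K ((Fin (2 ^ k) × Fin (3 * k) → K) → K))
      (R : Party (Fin (2 ^ k) × Fin (3 * k) → K) K M Bool)
      (S : Party (Fin (2 ^ k) × Fin (3 * k) → K) K M (Bool × Bool)) [Fintype R.Tape]
      [Fintype S.Tape] [Nonempty R.Tape] [Nonempty S.Tape] (out : R.St → Option Bool) (m0 : M),
      (∀ O, O ∈ L ↔ ∃ f : Fin (2 ^ k) → Fin (3 * k) → K, O = lin f) →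
      s + r ≤ N → 2 ≤ k → n ≤ k ^ c → 16 * (c + 4) * (r + 1) * Nat.log 2 k ≤ k →
      limited L R false N n → (∀ b, limited L S b N n) →
      idle L R false (fun i => s + r ≤ i ∧ i < N) →
      (∀ b, idle L S b (fun i => s + r ≤ i ∧ i < N)) →
      (idle L R false (fun i => i < s) ∨ ∀ b, idle L S b (fun i => i < s)) →
      ∀ (δ : ℝ) (b1 : Bool), (∀ b0, err L R S out N m0 false b0 b1 ≤ δ) →
        ∃ E : List (M × M) → Comp (Fin (2 ^ k) × Fin (3 * k) → K) K Bool,
          (∀ t O, ((E t).asked O).length ≤ 2 ^ (k / 4)) ∧
          1 - 2 * δ - 1 / k ≤ advSum L R S N m0 E b1 ∧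
          ∀ I : (Fin (3 * k) → K) →
              Comp ((Fin (2 ^ k) × Fin (3 * k) → K) ⊕ List (M × M)) (K ⊕ Bool) (Fin (2 ^ k)),
            (∀ y O, ((I y).asked (withAdv O E)).length ≤ 2 ^ (k / 4)) →
            prob (fun p : (Fin (2 ^ k) → Fin (3 * k) → K) × Fin (2 ^ k) =>
              p.1 ((I (p.1 p.2)).run (withAdv (lin p.1) E)) = p.1 p.2) ≤ 3 / 2 ^ (k / 2) := by
  intro K M _ _ k c N s r n L R S _ _ _ _ out m0 _ hsr hk hn hr hR hS qR qS hside δ b1 hδ
  exact window_barrier K M k c N s r n L R S out m0 hsr hk hn hr hR hS qR qS hside δ b1 hδ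

end Pool.Agent.Results.MP_ae38e0_lc.WindowBarrier
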